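import Mathlib
import Pool.Agent.Y703.CX.Stm
import Pool.Agent.E8helper20.CTM.StmD

/-!
# Project DN (helper18): the exact proportion for `x³ + y³ = 9 D`, exactly one prime factor `2` modulo `3`

`D` runs over the squarefree numbers prime to `3` with exactly one prime factor `q ≡ 2` modulo `3`. The
number `9 D` has no splitting (`NoSplitN`; at the prime `3` cubes modulo `9`) for exactly the proportion
`∏_{i ≥ 1} (1 - 3^{-i})`. This is an adaptation of `Pool/Agent/Y703/CX` and `Pool/Agent/E8helper25/CT3`: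
the vertex `3` is an additional small prime, now with an equation (`∑ c p * th p = 0`).
-/

set_option autoImplicit false
set_option linter.unusedVariables false

open scoped Classical

namespace Pool.Agent.E8helper18.DN

open Finset
open Pool.Agent.Y692.QS (Ei w nr toC)
open Pool.Agent.Y715.T.Rec (cs)
open Pool.Agent.Y715.T.RecG (Pq)
open Pool.Agent.Y699.E (ez PS nrm lg xab)
open Pool.Agent.Y703.CT (Base)
open Pool.Agent.Y703.CX (pp lam c3 LamP S_BIL1 S_BIL2 HB prs S_EQ S_LA S_SIE S_MER S_CHE S_C3 sm la jj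
  XX eL zz kk)
open Pool.Agent.E8helper20.CTM (lf)

/-- `D` is prime to `3`, free of cubes and exactly one prime `q = 2` modulo `3` divides `D` -/
def ClsN (D : ℕ) : Prop := Base D ∧
  ∃ q : ℕ, q.Prime ∧ q % 3 = 2 ∧ q ∣ D ∧ ∀ p : ℕ, p.Prime → p ∣ D → p ≠ q → p % 3 = 1

/-- `9 D` is not a product `d₀ d₁ d₂` of coprime factors, at least two of them different from `1`, such
that `d₁ d₂²`, `d₂ d₀²`, `d₀ d₁²` are cubes modulo the primes dividing `d₀`, `d₁`, `d₂`, and cubes modulo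
`9` in the case of the prime `3` -/
def NoSplitN (D : ℕ) : Prop :=
  ∀ d : ZMod 3 → ℕ, ∏ c, d c = 9 * D → (∀ c c', c ≠ c' → Nat.Coprime (d c) (d c')) →
    (∀ (c : ZMod 3) (p : ℕ), p.Prime → p ≠ 3 → p ∣ d c →
      ∃ x : ℤ, (p : ℤ) ∣ (d (c + 1) : ℤ) * (d (c + 2) : ℤ) ^ 2 - x ^ 3) →
    (∀ c : ZMod 3, 3 ∣ d c → ∃ x : ℤ, (9 : ℤ) ∣ (d (c + 1) : ℤ) * (d (c + 2) : ℤ) ^ 2 - x ^ 3) →
    ∃ c, ∀ c', c' ≠ c → d c' = 1

/-- the logarithm modulo `9` -/
def th (q : ℕ) : ZMod 3 := (((q ^ 2 - 1) / 3 : ℕ) : ZMod 3)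

/-- the symbols with the vertex `3` (of multiplicity two) -/
noncomputable def mu (p q : ℕ) : ZMod 3 := if p = 3 then th q else if q = 3 then 2 * lam p 3 else lam p q

/-- the solutions of the linear system attached to a set of primes and the vertex `3` -/
def Sol (S : Finset ℕ) (c : ℕ → ZMod 3) : Prop :=
  ∀ p ∈ insert 3 S, p % 3 ≠ 2 → ∑ q ∈ insert 3 S, (c q - c p) * mu p q = 0

/-- the good sets: all solutions are constant -/
def Gd (S : Finset ℕ) : Prop := ∀ c, Sol S c → ∀ p ∈ insert 3 S, ∀ q ∈ insert 3 S, c p = c q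

/-- the class of the sets of primes -/
def Cl (S : Finset ℕ) : Prop := (∀ p ∈ S, p.Prime ∧ p ≠ 3) ∧ (S.filter fun p => p % 3 = 2).card = 1

/-- the sets of the class with product at most `X` -/
noncomputable def SS (X : ℕ) : Finset (Finset ℕ) :=
  (range (X + 1)).powerset.filter fun S => Cl S ∧ ∏ p ∈ S, p ≤ X

/-- the proportion of the good sets -/
def S_DQ : Prop := Filter.Tendsto
  (fun X : ℕ => (((SS X).filter Gd).card : ℝ) / ((SS X).card : ℝ)) Filter.atTop (nhds c3)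

/-- the final statement -/
def S_DEN : Prop := Filter.Tendsto
  (fun X : ℕ => (((Icc 1 X).filter fun D => Squarefree D ∧ ClsN D ∧ NoSplitN D).card : ℝ) /
    (((Icc 1 X).filter fun D => Squarefree D ∧ ClsN D).card : ℝ)) Filter.atTop (nhds c3)

/-- NS: the translation (compare `Pool.Agent.Y710.CX.t_NS` and `E8helper25/CT3/NS.lean`). -/
def S_NS : Prop := LamP → S_DQ → S_DEN

/-- the labels of the large primes with respect to the small ones and `3` are not degenerate -/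
def Nd (S₀ S₁ : Finset ℕ) : Prop :=
  (∀ v : ℕ → ZMod 3, (∃ u ∈ insert 3 S₀, u % 3 ≠ 2 ∧ v u ≠ 0) →
    2 ≤ (S₁.filter fun p => p % 3 = 1 ∧
      ∑ u ∈ (insert 3 S₀).filter (fun u => u % 3 ≠ 2), v u * mu u p ≠ 0).card) ∧
  ∀ w : ℕ → ZMod 3, (∃ u ∈ insert 3 S₀, w u ≠ 0) →
    ∃ p ∈ S₁, p % 3 = 1 ∧ ∑ u ∈ insert 3 S₀, w u * mu p u ≠ 0

/-- the count in a box -/
def BoxC : Prop := ∀ (ι : Type) [Fintype ι] (J1 : Finset ι)
  (C : ι → Finset ℕ) (X : ι → ℕ) (κ : ℝ) (S₀ : Finset ℕ), 0 ≤ κ → (∀ i, (C i).card ≤ X i) →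
  HB J1 C X κ → (∀ u ∈ S₀, u.Prime ∧ u ≠ 3) →
  (∀ i, ∀ p ∈ C i, p.Prime ∧ p ∉ S₀ ∧ (i ∈ J1 → p % 3 = 1) ∧ (i ∉ J1 → p % 3 = 2)) →
  (∀ i l, i ≠ l → Disjoint (C i) (C l)) → J1.Nonempty →
  (S₀.filter fun p => p % 3 = 2).card + (univ \ J1).card = 1 →
  |(((Fintype.piFinset C).filter fun p => Nd S₀ (univ.image p) ∧ Gd (S₀ ∪ univ.image p)).card : ℝ) -
      c3 * (((Fintype.piFinset C).filter fun p => Nd S₀ (univ.image p)).card : ℝ)| ≤
    2 * (3 ^ (S₀.card + 1) / 3 ^ J1.card) *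
      (((Fintype.piFinset C).filter fun p => Nd S₀ (univ.image p)).card : ℝ) +
    3 ^ (2 * (S₀.card + 1) * Fintype.card ι + (prs J1).card) * (κ * ∏ j, (X j : ℝ))

/-- BOX: (compare `Pool.Agent.Y911.CX.t_BOX`; in `S_LA` take `U = insert 3 S₀`). -/
def S_BOX : Prop := S_EQ → S_LA → BoxC

/-- the regular sets -/
noncomputable def RR (X z H K V : ℕ) : Finset (Finset ℕ) :=
  (SS X).filter fun S => Set.InjOn (jj H) (la z S : Set ℕ) ∧ S.card ≤ K ∧
    (∏ p ∈ sm z S, p) * ∏ p ∈ la z S, XX H (jj H p) ≤ X ∧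
    (sm z S).card + V < ((la z S).filter fun p => p % 3 = 1).card

/-- the sum over the boxes -/
def KeyC : Prop := ∃ C : ℝ, 1 ≤ C ∧
  ∀ (X z H K V N : ℕ) (κ : ℝ), 1 ≤ X → 1 ≤ H → 1 ≤ z → 0 ≤ κ → C ≤ κ ^ 12 * z →
  (H : ℝ) * Real.log X < N →
  |(((RR X z H K V).filter fun S => Nd (sm z S) (la z S) ∧ Gd S).card : ℝ) -
      c3 * (((RR X z H K V).filter fun S => Nd (sm z S) (la z S)).card : ℝ)| ≤
    2 * (1 / 3 : ℝ) ^ V * ((RR X z H K V).card : ℝ) +
    (9 * N + 9 : ℝ) ^ K * (3 ^ (3 * K ^ 2 + 2 * K) * κ) * (X * (1 + Real.log X))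

/-- KEY: (compare `Pool.Agent.Y911.CX.t_KEY` and `E8helper25/CT3/Key.lean`; there is no condition
modulo `9` on the class here). -/
def S_KEY : Prop := LamP → S_BIL1 → S_BIL2 → BoxC → KeyC

/-- sets with many primes, sets near the boundary, sets with two primes in a block -/
structure CntP : Prop where
  many : ∀ X K : ℕ, 1 ≤ X → (((SS X).filter fun S => K < S.card).card : ℝ) * 2 ^ K ≤
    X * (1 + Real.log X)
  cut : ∀ X z H K : ℕ, 1 ≤ X → 1 ≤ H → (((SS X).filter fun S => S.card ≤ K ∧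
    X < (∏ p ∈ sm z S, p) * ∏ p ∈ la z S, XX H (jj H p)).card : ℝ) ≤ X * K / H + 1
  coll : ∀ X z H : ℕ, 1 ≤ X → 1 ≤ H → (((SS X).filter fun S =>
    ¬ Set.InjOn (jj H) (la z S : Set ℕ)).card : ℝ) ≤ 4 * X * (1 + Real.log X) / H

/-- CNT: (compare `Pool.Agent.Y388.CX.t_CNT` and `E8helper25/CT3/Cnt.lean`; only the inclusion of `SS X`
in the set of all sets of primes with product at most `X` matters). -/
def S_CNT : Prop := CntP

/-- the character with both digits modulo `9` -/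
noncomputable def xx (A B : Ei) (a b : ZMod 3) (α : Ei) : ℂ := xab A B α * ez (lf a b α)

/-- the sets of primes `p ≡ 1` with the character of both factors equal to one -/
noncomputable def HD (A B : Ei) (a b : ZMod 3) (T : ℕ) : Finset (Finset ℕ) :=
  (range (T + 1)).powerset.filter fun S => (∀ p ∈ S, p.Prime ∧ p % 3 = 1 ∧
    xx A B a b (pp p) = 1 ∧ xx A B a b (star (pp p)) = 1) ∧ ∏ p ∈ S, p ≤ T

/-- the logarithmic density for a nontrivial character -/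
def HalC : Prop := ∃ C : ℝ, 1 ≤ C ∧ ∀ (A B : Ei) (a b : ZMod 3) (T : ℕ), PS A → PS B →
  (A ≠ B ∨ a ≠ 0 ∨ b ≠ 0) → 2 ≤ T →
  ∑ S ∈ HD A B a b T, (1 : ℝ) / ((∏ p ∈ S, p : ℕ) : ℝ) ≤
    C * (lg (nrm A * nrm B)) ^ (1 / 6 : ℝ) * (Real.log T) ^ (1 / 3 : ℝ)

/-- HAL: (compare `E8helper25/CT3/Hal.lean`, `t_HAL3`, where only the digit `yy` occurs, and
`E8helper87/CTM/Hal9.lean`, `t_HAL9`, where both digits occur). -/
def S_HAL : Prop := LamP → HalC

/-- few sets have degenerate labels -/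
def BadC : Prop := ∃ (C : ℝ) (X₀ : ℕ), ∀ X : ℕ, X₀ ≤ X →
  (((SS X).filter fun S => S.card ≤ kk X ∧ ¬ Nd (sm (zz X) S) (la (zz X) S)).card : ℝ) ≤
    C * X * (Real.log X) ^ (-(3 / 5) : ℝ)

/-- BAD: (compare `Pool.Agent.Y37.CX.t_BAD` and `E8helper25/CT3/Fam.lean`, `Bad.lean`; for `p = π π̄` one has
`lam p 3 = c3 π = - c3 π̄` and `th p = - c2 π = - c2 π̄`, where `c2`, `c3` are the digits of
`E8helper20/CTM/StmD.lean`). -/
def S_BAD : Prop := LamP → S_SIE → HalC → BadC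

/-- few sets have few large primes -/
def FewC : Prop := ∀ V : ℕ, ∃ (C : ℝ) (X₀ : ℕ), ∀ X : ℕ, X₀ ≤ X →
  (((SS X).filter fun S => ((la (zz X) S).filter fun p => p % 3 = 1).card ≤
    (sm (zz X) S).card + V).card : ℝ) ≤ C * X * (Real.log X) ^ (-(3 / 5) : ℝ)

/-- FEW: (compare `Pool.Agent.Y495.CX.Few.t_FEW`). -/
def S_FEW : Prop := S_SIE → FewC

/-- the size of the class -/
def LowC : Prop := ∃ (c : ℝ) (X₀ : ℕ), 0 < c ∧ ∀ X : ℕ, X₀ ≤ X →
  c * X * (Real.log X) ^ (-(1 / 2) : ℝ) ≤ ((SS X).card : ℝ)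

/-- LOW: the class contains that of `Pool.Agent.Y461.CX.t_LOW`. -/
def S_LOW : Prop := S_MER → S_CHE → LowC

/-- ASY: (compare `Y703/CX/Asy.lean` and `E8helper25/CT3/Asy.lean`). -/
def S_ASY : Prop := KeyC → CntP → BadC → FewC → LowC → S_C3 → S_DQ

end Pool.Agent.E8helper18.DN
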